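import Pool.Agent.W363.JQ.Stm
import Pool.Agent.H712R2.Wind

/-! JQ-SEP: two rays landing at the same point separate. -/

set_option autoImplicit false

open Complex Set Topology Filter

namespace Pool.Agent.W809.JQ

open Pool.Agent.W363.JQ Pool.Agent.H712R2 Pool.Agent.H712R2.Cremer

/-- normalised exterior map -/
structure Nrm (Ψ : ℂ → ℂ) : Prop where
  cont : ContinuousOn Ψ {w | 1 < ‖w‖}
  norm : Tendsto (fun w => Ψ w / w) (Bornology.cobounded ℂ) (𝓝 1)

theorem continuousOn_tau' {φ : ℂ → ℂ} (hφ : Nrm φ) (p : ℂ) (t : ℝ) :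
    ContinuousOn (tau φ p t) (Ico 0 1) := by
  intro ρ hρ
  rcases eq_or_lt_of_le hρ.1 with h0 | h0
  · subst h0
    rw [ContinuousWithinAt, tau_zero]
    have h1 : Tendsto (fun ρ : ℝ => ((ρ⁻¹ : ℝ) : ℂ) * ee t) (𝓝[>] 0) (Bornology.cobounded ℂ) := by
      rw [← tendsto_norm_atTop_iff_cobounded]
      have : Tendsto (fun ρ : ℝ => ρ⁻¹) (𝓝[>] 0) atTop := tendsto_inv_nhdsGT_zero
      refine this.congr' ?_
      filter_upwards [self_mem_nhdsWithin] with ρ hρ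
      exact (norm_ray hρ).symm
    have h2 := hφ.norm.comp h1
    have h3 : Tendsto (tau φ p t) (𝓝[>] 0) (𝓝 1) := by
      refine h2.congr' ?_
      have : ∀ᶠ ρ : ℝ in 𝓝[>] 0, ρ < 1 := nhdsWithin_le_nhds (Iio_mem_nhds (by norm_num))
      filter_upwards [self_mem_nhdsWithin, this] with ρ hρ hρ1
      rw [tau_mid φ p t hρ hρ1]
      have h0 : (ρ:ℂ) ≠ 0 := by exact_mod_cast (ne_of_gt hρ)
      simp only [Function.comp_apply]
      rw [ee_neg]
      have := ee_ne t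
      push_cast
      field_simp
    intro U hU
    have h4 := h3 hU
    rw [mem_map, mem_nhdsWithin_iff_exists_mem_nhds_inter] at h4
    obtain ⟨W, hW, hWU⟩ := h4
    rw [mem_map, mem_nhdsWithin_iff_exists_mem_nhds_inter]
    refine ⟨W, hW, ?_⟩
    rintro x ⟨hx, hx2⟩
    rcases eq_or_lt_of_le hx2.1 with h | h
    · subst h
      simp only [mem_preimage, tau_zero]
      exact mem_of_mem_nhds hU
    · exact hWU ⟨hx, h⟩
  · have hev : tau φ p t =ᶠ[𝓝 ρ] fun ρ : ℝ => (ρ : ℂ) * ee (-t) * φ ((ρ⁻¹ : ℝ) * ee t) := by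
      have h1 : ∀ᶠ x : ℝ in 𝓝 ρ, 0 < x := Ioi_mem_nhds h0
      have h2 : ∀ᶠ x : ℝ in 𝓝 ρ, x < 1 := Iio_mem_nhds hρ.2
      filter_upwards [h1, h2] with x hx1 hx2
      exact tau_mid φ p t hx1 hx2
    refine ContinuousAt.continuousWithinAt ?_
    refine ContinuousAt.congr ?_ hev.symm
    have h5 : ContinuousAt φ (((ρ⁻¹ : ℝ) : ℂ) * ee t) :=
      hφ.cont.continuousAt (isOpen_ext.mem_nhds (one_lt_norm_ray h0 hρ.2))
    have h6 : ContinuousAt (fun ρ : ℝ => ((ρ⁻¹ : ℝ) : ℂ) * ee t) ρ := by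
      have : ContinuousAt (fun ρ : ℝ => ρ⁻¹) ρ := continuousAt_inv₀ h0.ne'
      have h7 : ContinuousAt (fun ρ : ℝ => ((ρ⁻¹ : ℝ) : ℂ)) ρ :=
        Complex.continuous_ofReal.continuousAt.comp this
      exact h7.mul continuousAt_const
    have h8 : ContinuousAt (fun ρ : ℝ => φ (((ρ⁻¹ : ℝ) : ℂ) * ee t)) ρ :=
      ContinuousAt.comp (f := fun ρ : ℝ => ((ρ⁻¹ : ℝ) : ℂ) * ee t) h5 h6
    have h9 : ContinuousAt (fun ρ : ℝ => (ρ : ℂ) * ee (-t)) ρ := by fun_prop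
    exact h9.mul h8

theorem continuousOn_tau {φ : ℂ → ℂ} (hφ : Nrm φ) {p : ℂ} {t : ℝ}
    (ht : Lands φ p t) : ContinuousOn (tau φ p t) (Icc 0 1) := by
  intro ρ hρ
  rcases eq_or_lt_of_le hρ.2 with h1 | h1
  · subst h1
    rw [ContinuousWithinAt, tau_one]
    have hinv : Tendsto (fun ρ : ℝ => ρ⁻¹) (𝓝[<] 1) (𝓝[>] 1) := by
      rw [tendsto_nhdsWithin_iff]
      constructor
      · have : Tendsto (fun ρ : ℝ => ρ⁻¹) (𝓝 1) (𝓝 1) := by
          have := (continuousAt_inv₀ (one_ne_zero (α := ℝ))).tendsto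
          rwa [inv_one] at this
        exact this.mono_left nhdsWithin_le_nhds
      · have : ∀ᶠ ρ : ℝ in 𝓝[<] 1, 0 < ρ := nhdsWithin_le_nhds (Ioi_mem_nhds (by norm_num))
        filter_upwards [self_mem_nhdsWithin, this] with ρ hρ hρ0
        exact (one_lt_inv₀ hρ0).mpr hρ
    have h2 := ht.comp hinv
    have h3 : Tendsto (fun ρ : ℝ => (ρ : ℂ) * ee (-t)) (𝓝[<] 1) (𝓝 (ee (-t))) := by
      have : ContinuousAt (fun ρ : ℝ => (ρ : ℂ) * ee (-t)) 1 := by fun_prop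
      have h4 := this.tendsto
      simp only [Complex.ofReal_one, one_mul] at h4
      exact h4.mono_left nhdsWithin_le_nhds
    have h5 : Tendsto (tau φ p t) (𝓝[<] 1) (𝓝 (p * ee (-t))) := by
      rw [mul_comm p]
      refine (h3.mul h2).congr' ?_
      have : ∀ᶠ ρ : ℝ in 𝓝[<] 1, 0 < ρ := nhdsWithin_le_nhds (Ioi_mem_nhds (by norm_num))
      filter_upwards [self_mem_nhdsWithin, this] with ρ hρ hρ0
      rw [tau_mid φ p t hρ0 hρ]
      rfl
    intro U hU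
    have h4 := h5 hU
    rw [mem_map, mem_nhdsWithin_iff_exists_mem_nhds_inter] at h4
    obtain ⟨W, hW, hWU⟩ := h4
    rw [mem_map, mem_nhdsWithin_iff_exists_mem_nhds_inter]
    refine ⟨W, hW, ?_⟩
    rintro x ⟨hx, hx2⟩
    rcases eq_or_lt_of_le hx2.2 with h | h
    · subst h
      simp only [mem_preimage, tau_one]
      exact mem_of_mem_nhds hU
    · exact hWU ⟨hx, h⟩
  · have := continuousOn_tau' hφ p t ρ ⟨hρ.1, h1⟩
    refine (this.mono_of_mem_nhdsWithin ?_)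
    rw [mem_nhdsWithin_iff_exists_mem_nhds_inter]
    exact ⟨Iio 1, Iio_mem_nhds h1, fun x hx => ⟨hx.2.1, hx.1⟩⟩

theorem continuousOn_TT {φ : ℂ → ℂ} (hφ : Nrm φ) {p : ℂ} {t : ℝ} (ht : Lands φ p t) :
    ContinuousOn (fun q : ℂ × ℝ => TT φ p t q.1 q.2) (Set.univ ×ˢ Icc (0:ℝ) 1) := by
  unfold TT
  refine ContinuousOn.sub ?_ (by fun_prop)
  exact (continuousOn_tau hφ ht).comp (by fun_prop) (fun q hq => hq.2)

/-- differences of logarithms are constant -/
theorem diff_const {X : Type*} [TopologicalSpace X] {S : Set X} (hS : IsPreconnected S)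
    {l l' : X → ℂ} (hl : ContinuousOn l S) (hl' : ContinuousOn l' S) {b b' : ℂ}
    (h : ∀ x ∈ S, Complex.exp (l x) * Complex.exp b = Complex.exp (l' x) * Complex.exp b')
    {x y : X} (hx : x ∈ S) (hy : y ∈ S) : l x - l' x = l y - l' y := by
  have := exp_lift_unique hS (u := fun x => l x + b)
    (v := fun x => l' x + (l y + b - l' y)) (by fun_prop) (by fun_prop)
    (fun z hz => by
      have h1 := h z hz
      have h2 := h y hy
      have e1 : Complex.exp (l y + b - l' y) = Complex.exp b' := by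
        rw [Complex.exp_sub, Complex.exp_add, h2]
        field_simp [Complex.exp_ne_zero]
      rw [Complex.exp_add, Complex.exp_add, e1, h1]) hy (by ring) x hx
  linear_combination this

/-- the comparison path -/
noncomputable def GG (A B : ℝ → ℂ) (e : ℂ) (κ y : ℝ) : ℂ :=
  ((1 - y / (1 + κ) : ℝ) : ℂ) * B (κ * (y / (1 + κ)) / (1 - y / (1 + κ)))
    - ((y / (1 + κ) : ℝ) : ℂ) * A κ * e

theorem dom {κ y : ℝ} (hκ : κ ∈ Icc (0 : ℝ) 1) (hy : y ∈ Icc (0 : ℝ) 1) :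
    0 ≤ 1 - y / (1 + κ) ∧ κ * (y / (1 + κ)) ≤ 1 - y / (1 + κ) ∧ 0 ≤ y / (1 + κ) := by
  have h1 : 0 < 1 + κ := by linarith [hκ.1]
  have h2 : y / (1 + κ) * (1 + κ) = y := div_mul_cancel₀ _ h1.ne'
  have h3 : 0 ≤ y / (1 + κ) := div_nonneg hy.1 h1.le
  refine ⟨?_, ?_, h3⟩
  · nlinarith [hκ.1, hκ.2, hy.1, hy.2]
  · nlinarith [hκ.1, hκ.2, hy.1, hy.2]

theorem GG_cont {A B : ℝ → ℂ} (hA : ContinuousOn A (Icc 0 1)) (hB : ContinuousOn B (Icc 0 1))
    (e : ℂ) : ContinuousOn (fun q : ℝ × ℝ => GG A B e q.1 q.2) (Icc (0:ℝ) 1 ×ˢ Icc (0:ℝ) 1) := by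
  have hY : ContinuousOn (fun q : ℝ × ℝ => q.2 / (1 + q.1)) (Icc (0:ℝ) 1 ×ˢ Icc (0:ℝ) 1) := by
    refine ContinuousOn.div (by fun_prop) (by fun_prop) ?_
    rintro ⟨κ, y⟩ ⟨hκ, hy⟩
    have := hκ.1
    simp only at *
    linarith
  unfold GG
  refine ContinuousOn.sub ?_ ?_
  · -- the first term
    obtain ⟨M, hM⟩ := isCompact_Icc.exists_bound_of_continuousOn hB
    rintro ⟨κ, y⟩ ⟨hκ, hy⟩
    have hd := dom hκ hy
    rcases eq_or_lt_of_le hd.1 with h0 | h0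
    · -- the corner
      have hval : ((1 - (κ, y).2 / (1 + (κ, y).1) : ℝ) : ℂ) *
          B ((κ, y).1 * ((κ, y).2 / (1 + (κ, y).1)) / (1 - (κ, y).2 / (1 + (κ, y).1))) = 0 := by
        rw [← h0]; simp
      rw [ContinuousWithinAt, hval]
      have hlim : Tendsto (fun q : ℝ × ℝ => (1 - q.2 / (1 + q.1)) * M)
          (𝓝[Icc (0:ℝ) 1 ×ˢ Icc (0:ℝ) 1] (κ, y)) (𝓝 0) := by
        have h1 := ((continuousOn_const (c := (1:ℝ))).sub hY).mul
          (continuousOn_const (c := M)) (κ, y) ⟨hκ, hy⟩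
        rw [ContinuousWithinAt] at h1
        have e0 : (1 - y / (1 + κ)) * M = 0 := by rw [← h0, zero_mul]
        change Tendsto _ _ (𝓝 ((1 - y / (1 + κ)) * M)) at h1
        rw [e0] at h1
        exact h1
      refine squeeze_zero_norm' ?_ hlim
      filter_upwards [self_mem_nhdsWithin] with q hq
      obtain ⟨hq1, hq2⟩ := hq
      have hd' := dom hq1 hq2
      rw [norm_mul, Complex.norm_real, Real.norm_eq_abs, abs_of_nonneg hd'.1]
      refine mul_le_mul_of_nonneg_left (hM _ ?_) hd'.1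
      refine ⟨div_nonneg (mul_nonneg hq1.1 hd'.2.2) hd'.1, div_le_one_of_le₀ hd'.2.1 hd'.1⟩
    · have hmem : ContinuousWithinAt
          (fun q : ℝ × ℝ => B (q.1 * (q.2 / (1 + q.1)) / (1 - q.2 / (1 + q.1))))
          (Icc (0:ℝ) 1 ×ˢ Icc (0:ℝ) 1) (κ, y) := by
        have hin : ContinuousWithinAt
            (fun q : ℝ × ℝ => q.1 * (q.2 / (1 + q.1)) / (1 - q.2 / (1 + q.1)))
            (Icc (0:ℝ) 1 ×ˢ Icc (0:ℝ) 1) (κ, y) := by
          refine ContinuousWithinAt.div ?_ ?_ h0.ne'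
          · exact (continuous_fst.continuousWithinAt).mul (hY (κ, y) ⟨hκ, hy⟩)
          · exact continuousWithinAt_const.sub (hY (κ, y) ⟨hκ, hy⟩)
        refine ContinuousWithinAt.comp (t := Icc (0:ℝ) 1) (hB _ ?_) hin ?_
        · exact ⟨div_nonneg (mul_nonneg hκ.1 hd.2.2) hd.1, div_le_one_of_le₀ hd.2.1 hd.1⟩
        · rintro ⟨κ', y'⟩ ⟨hq1, hq2⟩
          have hd' := dom hq1 hq2
          exact ⟨div_nonneg (mul_nonneg hq1.1 hd'.2.2) hd'.1, div_le_one_of_le₀ hd'.2.1 hd'.1⟩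
      refine ContinuousWithinAt.mul ?_ hmem
      exact Complex.continuous_ofReal.continuousAt.comp_continuousWithinAt
        (continuousWithinAt_const.sub (hY (κ, y) ⟨hκ, hy⟩))
  · refine ContinuousOn.mul (ContinuousOn.mul ?_ ?_) continuousOn_const
    · exact Complex.continuous_ofReal.comp_continuousOn hY
    · exact hA.comp (by fun_prop) (fun q hq => hq.1)

/-- the values of `tau` -/
theorem tau_pos (Ψ : ℂ → ℂ) (p : ℂ) (t : ℝ) {ρ : ℝ} (h0 : 0 < ρ) (h1 : ρ ≤ 1) :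
    ∃ b : ℂ, tau Ψ p t ρ = (ρ : ℂ) * ee (-t) * b ∧ ((ρ = 1 ∧ b = p) ∨
      (ρ < 1 ∧ b = Ψ ((ρ⁻¹ : ℝ) * ee t))) := by
  rcases eq_or_lt_of_le h1 with h | h
  · subst h
    exact ⟨p, by rw [tau_one]; push_cast; ring, Or.inl ⟨rfl, rfl⟩⟩
  · exact ⟨_, tau_mid Ψ p t h0 h, Or.inr ⟨h, rfl⟩⟩

/-- non-crossing hypotheses -/
structure NC (Ψ : ℂ → ℂ) (p a : ℂ) (t α : ℝ) : Prop where
  ne : p ≠ a
  e1 : ee (α - t) ≠ 1
  h1 : ∀ r : ℝ, 1 < r → Ψ (r * ee t) ≠ a
  h2 : ∀ r : ℝ, 1 < r → Ψ (r * ee α) ≠ p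
  h3 : ∀ r r' : ℝ, 1 < r → 1 < r' → Ψ (r * ee t) ≠ Ψ (r' * ee α)

theorem GG_ne {Ψ : ℂ → ℂ} {p a : ℂ} {t α : ℝ} (h : NC Ψ p a t α) {κ y : ℝ}
    (hκ : κ ∈ Icc (0 : ℝ) 1) (hy : y ∈ Icc (0 : ℝ) 1) :
    GG (tau Ψ a α) (tau Ψ p t) (ee (α - t)) κ y ≠ 0 := by
  have hd := dom hκ hy
  rcases eq_or_lt_of_le hκ.1 with hk | hk
  · subst hk
    simp only [GG, add_zero, div_one, zero_mul, zero_div, tau_zero, mul_one]
    intro h0
    -- (1 - y) = y e
    have h4 : ((1 - y : ℝ) : ℂ) = (y : ℂ) * ee (α - t) := by linear_combination h0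
    have h5 := congrArg norm h4
    rw [norm_mul, norm_ee, Complex.norm_real, Complex.norm_real, Real.norm_eq_abs,
      Real.norm_eq_abs, abs_of_nonneg hy.1, abs_of_nonneg (by linarith [hy.2]), mul_one] at h5
    have h6 : y = 1 / 2 := by linarith
    subst h6
    apply h.e1
    have h7 : ((1 / 2 : ℝ) : ℂ) ≠ 0 := by norm_num
    have h8 : ((1 - 1 / 2 : ℝ) : ℂ) = ((1 / 2 : ℝ) : ℂ) := by norm_num
    rw [h8] at h4
    have h9 : ((1 / 2 : ℝ) : ℂ) * ee (α - t) = ((1 / 2 : ℝ) : ℂ) * 1 := by rw [← h4, mul_one]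
    exact mul_left_cancel₀ h7 h9
  · rcases eq_or_lt_of_le hy.1 with hy0 | hy0
    · subst hy0
      simp [GG, tau_zero]
    · have hk1 : 0 < 1 + κ := by linarith
      set Y := y / (1 + κ) with hYdef
      have hY0 : 0 < Y := div_pos hy0 hk1
      have hY1 : 0 < 1 - Y := lt_of_lt_of_le (mul_pos hk hY0) hd.2.1
      set ρ := κ * Y / (1 - Y) with hρdef
      have hρ0 : 0 < ρ := div_pos (mul_pos hk hY0) hY1
      have hρ1 : ρ ≤ 1 := (div_le_one hY1).2 hd.2.1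
      obtain ⟨b, hb, hb'⟩ := tau_pos Ψ p t hρ0 hρ1
      obtain ⟨a', ha, ha'⟩ := tau_pos Ψ a α hk hκ.2
      have hne : b ≠ a' := by
        rcases hb' with ⟨_, rfl⟩ | ⟨hb1, rfl⟩
        · rcases ha' with ⟨_, rfl⟩ | ⟨ha1, rfl⟩
          · exact h.ne
          · exact (h.h2 _ ((one_lt_inv₀ hk).2 ha1)).symm
        · rcases ha' with ⟨_, rfl⟩ | ⟨ha1, rfl⟩
          · exact h.h1 _ ((one_lt_inv₀ hρ0).2 hb1)
          · exact h.h3 _ _ ((one_lt_inv₀ hρ0).2 hb1) ((one_lt_inv₀ hk).2 ha1)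
      have hval : GG (tau Ψ a α) (tau Ψ p t) (ee (α - t)) κ y
          = ((κ * Y : ℝ) : ℂ) * ee (-t) * (b - a') := by
        have hY1c : (1 - (Y : ℂ)) ≠ 0 := by
          have : ((1 - Y : ℝ) : ℂ) ≠ 0 := by exact_mod_cast hY1.ne'
          simpa using this
        have e2 : ee (-α) * ee (α - t) = ee (-t) := by
          rw [← ee_add]; congr 1; ring
        simp only [GG]
        rw [← hYdef, ← hρdef, hb, ha, hρdef]
        push_cast
        have : (1 - (Y : ℂ)) * ((κ : ℂ) * Y / (1 - Y) * ee (-t) * b)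
            = (κ : ℂ) * Y * ee (-t) * b := by field_simp
        rw [this]
        linear_combination (-(Y : ℂ) * κ * a') * e2
      rw [hval]
      refine mul_ne_zero (mul_ne_zero ?_ (ee_ne _)) (sub_ne_zero.2 hne)
      exact_mod_cast (mul_pos hk hY0).ne'

theorem GG_slit {e : ℂ} (he : ‖e‖ = 1) (h1 : e ≠ 1) {y : ℝ} (hy : y ∈ Icc (0 : ℝ) 1) :
    ((1 - y : ℝ) : ℂ) - y * e ∈ slitPlane := by
  rw [Complex.mem_slitPlane_iff]
  by_cases him : e.im = 0
  · left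
    have hre : e.re ^ 2 = 1 := by
      have := Complex.sq_norm e
      rw [Complex.normSq_apply, him, he] at this
      nlinarith
    have hre' : e.re = -1 := by
      rcases mul_eq_zero.1 (show (e.re - 1) * (e.re + 1) = 0 by nlinarith) with h | h
      · exact absurd (Complex.ext (by simp; linarith) (by simpa using him)) h1
      · linarith
    simp only [Complex.sub_re, Complex.ofReal_re, Complex.mul_re, Complex.ofReal_im, zero_mul,
      sub_zero, hre']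
    linarith [hy.1]
  · rcases eq_or_lt_of_le hy.1 with h | h
    · left
      subst h
      simp
    · right
      simp only [Complex.sub_im, Complex.ofReal_im, Complex.mul_im, Complex.ofReal_re, zero_mul,
        add_zero]
      have : y * e.im ≠ 0 := mul_ne_zero h.ne' him
      intro h0
      apply this
      linarith

theorem GG_one {Ψ : ℂ → ℂ} (p a : ℂ) (t α : ℝ) {κ : ℝ} (hκ : κ ∈ Icc (0 : ℝ) 1) :
    GG (tau Ψ a α) (tau Ψ p t) (ee (α - t)) κ 1 * ee t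
      = (κ * p - tau Ψ a α κ * ee α) / (1 + κ) := by
  have e2 : ee (α - t) * ee t = ee α := by rw [← ee_add]; congr 1; ring
  have e3 := ee_neg_mul t
  have h1 : (1 + (κ : ℂ)) ≠ 0 := by
    have : ((1 + κ : ℝ) : ℂ) ≠ 0 := by
      have := hκ.1
      exact_mod_cast (by linarith : (1 + κ) ≠ 0)
    simpa using this
  rcases eq_or_lt_of_le hκ.1 with hk | hk
  · subst hk
    simp only [GG, add_zero, div_one, sub_self, Complex.ofReal_zero, zero_mul, zero_sub,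
      Complex.ofReal_one, one_mul, tau_zero]
    rw [neg_mul, e2]
  · have hk1 : 0 < 1 + κ := by linarith
    have h2 : κ * (1 / (1 + κ)) / (1 - 1 / (1 + κ)) = 1 := by
      have : 1 - 1 / (1 + κ) = κ / (1 + κ) := by field_simp; ring
      rw [this]
      field_simp
    simp only [GG]
    rw [h2, tau_one]
    push_cast
    field_simp
    linear_combination (κ * p) * e3 - tau Ψ a α κ * e2

theorem GG_pl0 {Ψ : ℂ → ℂ} (p a : ℂ) (t α : ℝ) (h : ee (α - t) ≠ 1) :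
    IsPL (GG (tau Ψ a α) (tau Ψ p t) (ee (α - t)) 0) (Complex.log (-ee (α - t))) := by
  have h1 : IsPL (fun y : ℝ => ((1 - y : ℝ) : ℂ) - y * ee (α - t))
      (Complex.log (((1 - 1 : ℝ) : ℂ) - (1 : ℝ) * ee (α - t))) :=
    IsPL.of_slit (g := fun y : ℝ => ((1 - y : ℝ) : ℂ) - y * ee (α - t)) (by fun_prop)
      (by simp) (fun ρ hρ => GG_slit (norm_ee _) h hρ)
  have h2 : (((1 - 1 : ℝ) : ℂ) - (1 : ℝ) * ee (α - t)) = -ee (α - t) := by simp
  rw [h2] at h1
  refine h1.congr fun y _ => ?_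
  simp [GG, tau_zero]

theorem GG_pl1 {Ψ : ℂ → ℂ} {p a : ℂ} {t α : ℝ} {L : ℂ} (h : IsPL (TT Ψ p t a) L) :
    IsPL (GG (tau Ψ a α) (tau Ψ p t) (ee (α - t)) 1)
      (Complex.log ((1 - 1 / 2 : ℝ) : ℂ) + L) := by
  have h1 := h.reparam (s := fun y => y / (2 - y)) (by
      refine ContinuousOn.div (by fun_prop) (by fun_prop) ?_
      rintro y ⟨h1, h2⟩
      linarith) (by norm_num) (by norm_num) (by
      rintro y ⟨h1, h2⟩
      have : 0 < 2 - y := by linarith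
      exact ⟨div_nonneg h1 this.le, (div_le_one this).2 (by linarith)⟩)
  have h2 : IsPL (fun y : ℝ => ((1 - y / 2 : ℝ) : ℂ)) (Complex.log ((1 - 1 / 2 : ℝ) : ℂ)) :=
    IsPL.of_slit (g := fun y : ℝ => ((1 - y / 2 : ℝ) : ℂ)) (by fun_prop) (by simp)
      (by
        rintro y ⟨h1, h2⟩
        rw [Complex.ofReal_mem_slitPlane]
        linarith)
  refine (h2.mul h1).congr fun y hy => ?_
  have hy2 : 0 < 2 - y := by linarith [hy.2]
  have e1 : (1 : ℝ) * (y / (1 + 1)) / (1 - y / (1 + 1)) = y / (2 - y) := by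
    rw [one_mul, one_add_one_eq_two]
    rw [div_eq_div_iff (by linarith) hy2.ne']
    ring
  have e2 : ee (-α) * ee (α - t) = ee (-t) := by rw [← ee_add]; congr 1; ring
  have e4 : (1 - (y : ℂ) / 2) * ((y / (2 - y) : ℝ) : ℂ) = (y : ℂ) / 2 := by
    have : (2 - (y : ℂ)) ≠ 0 := by
      have : ((2 - y : ℝ) : ℂ) ≠ 0 := by exact_mod_cast hy2.ne'
      simpa using this
    push_cast
    field_simp
  simp only [GG, TT]
  rw [e1, tau_one, one_add_one_eq_two]
  push_cast at e4 ⊢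
  linear_combination (-a * ee (-t)) * e4 + ((y : ℂ) / 2 * a) * e2

theorem key {Ψ : ℂ → ℂ} (hΨ : Nrm Ψ) {p a : ℂ} {θ θ' α : ℝ} (hθ : Lands Ψ p θ)
    (hθ' : Lands Ψ p θ') (hα : Lands Ψ a α) (n : NC Ψ p a θ α) (n' : NC Ψ p a θ' α) {L L' : ℂ}
    (hL : IsPL (TT Ψ p θ a) L) (hL' : IsPL (TT Ψ p θ' a) L') :
    L - L' = Complex.log (-ee (α - θ)) - Complex.log (-ee (α - θ')) := by
  have z : ∀ (A B : ℝ → ℂ) (e : ℂ) (κ : ℝ), B 0 = 1 → GG A B e κ 0 = 1 := by
    intro A B e κ h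
    simp [GG, h]
  obtain ⟨l, hl, hl2⟩ := IsPL.exists_param (Z := ℝ) (S := Icc (0:ℝ) 1)
    (G := GG (tau Ψ a α) (tau Ψ p θ) (ee (α - θ)))
    (GG_cont (continuousOn_tau hΨ hα) (continuousOn_tau hΨ hθ) _)
    (fun κ _ => z _ _ _ κ (tau_zero _ _ _)) (fun κ hκ y hy => GG_ne n hκ hy)
  obtain ⟨l', hl', hl2'⟩ := IsPL.exists_param (Z := ℝ) (S := Icc (0:ℝ) 1)
    (G := GG (tau Ψ a α) (tau Ψ p θ') (ee (α - θ')))
    (GG_cont (continuousOn_tau hΨ hα) (continuousOn_tau hΨ hθ') _)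
    (fun κ _ => z _ _ _ κ (tau_zero _ _ _)) (fun κ hκ y hy => GG_ne n' hκ hy)
  have h := diff_const (S := Icc (0:ℝ) 1) isPreconnected_Icc hl hl'
    (b := 2 * Real.pi * θ * Complex.I) (b' := 2 * Real.pi * θ' * Complex.I)
    (fun κ hκ => by
      have g1 : Complex.exp (2 * Real.pi * θ * Complex.I) = ee θ := rfl
      have g2 : Complex.exp (2 * Real.pi * θ' * Complex.I) = ee θ' := rfl
      rw [g1, g2, (hl2 κ hκ).exp_eq, (hl2' κ hκ).exp_eq, GG_one p a θ α hκ, GG_one p a θ' α hκ])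
    (x := 1) (y := 0) (by simp) (by simp)
  have a1 := (hl2 1 (by simp)).unique (GG_pl1 hL)
  have a2 := (hl2' 1 (by simp)).unique (GG_pl1 hL')
  have a3 := (hl2 0 (by simp)).unique (GG_pl0 p a θ α n.e1)
  have a4 := (hl2' 0 (by simp)).unique (GG_pl0 p a θ' α n'.e1)
  rw [a1, a2, a3, a4] at h
  linear_combination h

theorem log_neg_ee {x : ℝ} (h0 : 0 < x) (h1 : x < 1) :
    Complex.log (-ee x) = ((2 * Real.pi * (x - 1 / 2) : ℝ) : ℂ) * Complex.I := by
  have e1 : -ee x = Complex.exp (((2 * Real.pi * (x - 1 / 2) : ℝ) : ℂ) * Complex.I) := by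
    have := ee_add_half (x - 1 / 2)
    rw [show x - 1 / 2 + 1 / 2 = x by ring] at this
    rw [this, neg_neg, ee]
    congr 1
    push_cast
    ring
  rw [e1, Complex.log_exp]
  · simp only [Complex.mul_I_im, Complex.ofReal_re]
    nlinarith [Real.pi_pos]
  · simp only [Complex.mul_I_im, Complex.ofReal_re]
    nlinarith [Real.pi_pos]

theorem rp_eq (s t : ℝ) : rp s t = (Real.exp s : ℝ) * ee t := by
  rw [rp, Complex.exp_add, ee, Complex.ofReal_exp]

theorem lands {f : Polynomial ℂ} {Φ : ℂ → ℂ} {φ : ℝ → ℂ} (hC : Cara f Φ φ) (t : ℝ) :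
    Lands Φ (φ t) t := by
  unfold Lands
  rw [Metric.tendsto_nhds]
  intro ε hε
  obtain ⟨s₀, hs₀, h⟩ := hC.lim ε hε
  have h1 : ∀ᶠ r : ℝ in 𝓝[>] 1, r < Real.exp s₀ :=
    nhdsWithin_le_nhds (Iio_mem_nhds (Real.one_lt_exp_iff.2 hs₀))
  filter_upwards [h1, self_mem_nhdsWithin] with r hr hr1
  have hr1' : (1 : ℝ) < r := hr1
  have hr0 : 0 < r := by linarith
  have h2 := h (Real.log r) (Real.log_pos hr1') ((Real.log_lt_iff_lt_exp hr0).2 hr) t
  rw [rp_eq, Real.exp_log hr0] at h2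
  exact h2

theorem sep : S_sep := by
  intro f Φ φ hB hΦ hC U θ β θ' α hU hUK h1 h2 h3 h4 hp hθU hαU hβU
  obtain ⟨c, hc, hlim⟩ := hΦ.inf
  set Ψ : ℂ → ℂ := fun w => Φ w / c with hΨ
  have hN : Nrm Ψ := by
    refine ⟨hΦ.dif.continuousOn.div_const c, ?_⟩
    have := hlim.div_const c
    rw [div_self hc] at this
    refine this.congr fun w => ?_
    simp only [hΨ]
    ring
  have hL : ∀ t, Lands Ψ (φ t / c) t := fun t => (lands hC t).div_const c
  have hK : ∀ t, φ t ∈ KK f := fun t => hB.jsub (hC.rng ▸ Set.mem_range_self t)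
  have hnr : ∀ (r t : ℝ), 1 < r → 1 < ‖(r : ℂ) * ee t‖ := fun r t hr => by
    rw [norm_mul, norm_ee, mul_one, Complex.norm_real, Real.norm_eq_abs,
      abs_of_pos (by linarith)]
    exact hr
  have hout : ∀ (r t : ℝ), 1 < r → ∀ z ∈ KK f, Φ (r * ee t) ≠ z := by
    intro r t hr z hz h
    have : Φ (r * ee t) ∈ (KK f)ᶜ := by
      rw [← hΦ.img]
      exact ⟨_, hnr r t hr, rfl⟩
    rw [h] at this
    exact this hz
  have hout' : ∀ (r t : ℝ), 1 < r → ∀ z ∈ KK f, Ψ (r * ee t) ≠ z / c := by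
    intro r t hr z hz h
    exact hout r t hr z hz ((div_left_inj' hc).1 h)
  have hee : ∀ s t : ℝ, (∃ k : ℤ, (k : ℝ) < s - t ∧ s - t < k + 1) → ee s ≠ ee t := by
    rintro s t ⟨k, hk1, hk2⟩ h
    obtain ⟨n, hn⟩ := ee_eq_iff.1 h
    have e1 : s - t = n := by rw [hn]; ring
    rw [e1] at hk1 hk2
    have h5 : k < n := by exact_mod_cast hk1
    have h6 : n < k + 1 := by exact_mod_cast hk2
    omega
  have hNC : ∀ t s : ℝ, φ t ≠ φ s → (∃ k : ℤ, (k : ℝ) < s - t ∧ s - t < k + 1) →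
      NC Ψ (φ t / c) (φ s / c) t s := by
    intro t s hne hk
    have hst := hee s t hk
    refine ⟨fun h => hne ((div_left_inj' hc).1 h), ?_, fun r hr => hout' r t hr _ (hK s),
      fun r hr => hout' r s hr _ (hK t), ?_⟩
    · intro h
      apply hst
      have : s = (s - t) + t := by ring
      rw [this, ee_add, h, one_mul]
    · intro r r' hr hr' h
      have h5 := hΦ.inj (hnr r t hr) (hnr r' s hr') ((div_left_inj' hc).1 h)
      have h6 := congrArg norm h5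
      rw [norm_mul, norm_mul, norm_ee, norm_ee, mul_one, mul_one, Complex.norm_real,
        Complex.norm_real, Real.norm_eq_abs, Real.norm_eq_abs, abs_of_pos (by linarith),
        abs_of_pos (by linarith)] at h6
      rw [h6] at h5
      have hr0 : (r' : ℂ) ≠ 0 := by
        have : r' ≠ 0 := by linarith
        exact_mod_cast this
      exact hst (mul_left_cancel₀ hr0 h5).symm
  have hne : ∀ s, φ s ∈ U → φ θ ≠ φ s := fun s hs h => hθU (h ▸ hs)
  have nα := hNC θ α (hne α hαU) ⟨0, by push_cast; linarith, by push_cast; linarith⟩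
  have nβ := hNC θ β (hne β hβU) ⟨0, by push_cast; linarith, by push_cast; linarith⟩
  have nα' := hNC θ' α (hp ▸ hne α hαU) ⟨0, by push_cast; linarith, by push_cast; linarith⟩
  have nβ' := hNC θ' β (hp ▸ hne β hβU) ⟨-1, by push_cast; linarith, by push_cast; linarith⟩
  rw [← hp] at nα' nβ'
  have hL' : Lands Ψ (φ θ / c) θ' := by rw [hp]; exact hL θ'
  -- logarithms on U
  have hTT : ∀ t : ℝ, ∀ z ∈ U, ∀ ρ ∈ Icc (0:ℝ) 1, TT Ψ (φ θ / c) t (z / c) ρ ≠ 0 := by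
    intro t z hz
    have : z / c ∈ ZZ Ψ (φ θ / c) t := by
      rw [mem_ZZ_iff]
      refine ⟨fun h => hθU ?_, fun r hr => hout' r t hr z (hUK hz)⟩
      rw [← (div_left_inj' hc).1 h]
      exact hz
    exact this
  obtain ⟨l, hl, hl2⟩ := IsPL.exists_param (Z := ℂ) (S := U)
    (G := fun z => TT Ψ (φ θ / c) θ (z / c))
    ((continuousOn_TT hN (hL θ)).comp (f := fun q : ℂ × ℝ => (q.1 / c, q.2)) (by fun_prop)
      (fun q hq => ⟨mem_univ _, hq.2⟩))
    (fun z _ => TT_zero _ _ _ _) (hTT θ)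
  obtain ⟨l', hl', hl2'⟩ := IsPL.exists_param (Z := ℂ) (S := U)
    (G := fun z => TT Ψ (φ θ / c) θ' (z / c))
    ((continuousOn_TT hN hL').comp (f := fun q : ℂ × ℝ => (q.1 / c, q.2)) (by fun_prop)
      (fun q hq => ⟨mem_univ _, hq.2⟩))
    (fun z _ => TT_zero _ _ _ _) (hTT θ')
  have h := diff_const hU hl hl'
    (b := 2 * Real.pi * θ * Complex.I) (b' := 2 * Real.pi * θ' * Complex.I)
    (fun z hz => by
      have g1 : Complex.exp (2 * Real.pi * θ * Complex.I) = ee θ := rfl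
      have g2 : Complex.exp (2 * Real.pi * θ' * Complex.I) = ee θ' := rfl
      rw [g1, g2, (hl2 z hz).exp_eq, (hl2' z hz).exp_eq, TT_one, TT_one, mul_assoc, mul_assoc,
        ee_neg_mul, ee_neg_mul]) hαU hβU
  have k1 := key hN (hL θ) hL' (hL α) nα nα' (hl2 _ hαU) (hl2' _ hαU)
  have k2 := key hN (hL θ) hL' (hL β) nβ nβ' (hl2 _ hβU) (hl2' _ hβU)
  rw [k1, k2] at h
  have e5 : ee (β - θ') = ee (β - θ' + 1) := by
    have := ee_add_int (β - θ') 1
    push_cast at this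
    exact this.symm
  rw [e5, log_neg_ee (by linarith) (by linarith), log_neg_ee (by linarith) (by linarith),
    log_neg_ee (by linarith) (by linarith), log_neg_ee (by linarith) (by linarith)] at h
  have h6 := congrArg Complex.im h
  simp only [Complex.sub_im, Complex.mul_I_im, Complex.ofReal_re] at h6
  have := Real.pi_pos
  nlinarith

end Pool.Agent.W809.JQ
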